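import Pool.Agent.Lib.MP_ca1492_al.Fn.Main
import Pool.Agent.Lib.MP_ca1492_al.Fn.LinkEx

/-!
# Non-vanishing of Ext between Arthur type representations of `GL_n`
-/

set_option autoImplicit false

open Pool.Agent.Lib.MP_ca1492_al

theorem Pool.Agent.Results.MP_ca1492_al.ExtArthurType.result (F : Type) [Field F]
    [ValuativeRel F] [TopologicalSpace F] [IsNonarchimedeanLocalField F] : U.Q1 F :=
  Q.main_of_link (Q.hlink F)
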